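import Pool.Agent.U243.ACFBound

/-!
# The hyperkähler SYZ conjecture for projective manifolds: finitely many curves are enough

Nefness is a condition on infinitely many curves, and the exponent `k` in the conclusion of Q1 depends on the manifold. Here: Q1 for
projective manifolds is equivalent to a statement with bounds: for every bounded family of pairs `(M, L)` there is `m` such that
`L · C ≥ 0` for the curves `C` of degree at most `m` implies that `L^k` is globally generated for some `0 < k ≤ m`. Then the same
is true over all algebraically closed fields of characteristic `p > m`, and it is sufficient to have it over the algebraic closure of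
`ℚ`, or for infinitely many `p`.

`SYZTheory` collects the known facts used.

* Pairs `(M, L)` with `M ⊂ ℙᴺ` of dimension `2n`, defined by `N²` equations of degree at most `N`, and `L` given by a presentation
  matrix of degree and size at most `N`, are given by coefficients `a`. `Pair n N K a`: `M` is smooth irreducible with a
  `2`-form which is non-degenerate everywhere, `h⁰(Ω^i)` is `1` for even and `0` for odd `i ≤ 2n`, `L` is a non-trivial line bundle, and
  `L^(2n) = 0` (top self-intersection). Over `ℂ` the conditions on `M` hold if and only if `M` is a projective hyperkähler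
  manifold (Beauville-Bogomolov decomposition), and `L^(2n) = 0` is equivalent to `q(c₁(L)) = 0` (Fujiki's relation).
* `pair_fo`, `curve_fo`, `gen_fo`: for fixed `n`, `N`, `e`, `m` these conditions, that `L · C ≥ 0` for all curves `C` of degree
  `e`, and that `L^k` is globally generated for some `0 < k ≤ m`, are first-order over algebraically closed fields.
* `syz_iff` (Matsushita): for complex `(M, L)` with `L` nef the conclusion of Q1 holds if and only if some `L^k`, `k > 0`, is globally
  generated.
-/

set_option autoImplicit false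

namespace Pool.Agent.Results.MP_a405d2_ag.FiniteNefness

open Pool.Agent.U243.ACF

/-- Projective hyperkähler manifolds with an isotropic line bundle, and the known facts that are used. -/
structure SYZTheory where
  /-- the number of the coefficients of the pairs `(M, L)`, `dim M = 2n`, `M ⊂ ℙᴺ` -/
  r : ℕ → ℕ → ℕ
  /-- `a` gives `M_a ⊂ ℙᴺ` smooth of dimension `2n` with an everywhere non-degenerate `2`-form, with `h⁰(Ω^i) = 1, 0, 1, 0, ..., 1`, and
  a non-trivial line bundle `L_a` on it with `L_a^(2n) = 0` -/
  Pair : ∀ (n N : ℕ) (K : Type) [Field K], (Fin (r n N) → K) → Prop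
  /-- `L_a · C ≥ 0` for all curves `C` of degree `e` on `M_a` -/
  Curve : ℕ → ∀ (n N : ℕ) (K : Type) [Field K], (Fin (r n N) → K) → Prop
  /-- `L_a^k` is globally generated for some `0 < k ≤ m` -/
  Gen : ℕ → ∀ (n N : ℕ) (K : Type) [Field K], (Fin (r n N) → K) → Prop
  /-- the conclusion of Q1 for the complex pair `(M_a, L_a)` -/
  Concl : ∀ n N : ℕ, (Fin (r n N) → ℂ) → Prop
  pair_fo : ∀ n N, FO1 (Pair n N)
  curve_fo : ∀ n N, FO (fun e => Curve e n N)
  gen_fo : ∀ n N, FO (fun m => Gen m n N)
  gen_mono : ∀ n N, Incr (fun m => Gen m n N)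
  syz_iff : ∀ n N a, Pair n N ℂ a → (∀ e, 0 < e → Curve e n N ℂ a) → (Concl n N a ↔ ∃ m, Gen m n N ℂ a)

variable (S : SYZTheory)

/-- Q1 for projective hyperkähler manifolds of dimension `2n` -/
def Q1Projective (n : ℕ) : Prop :=
  ∀ N a, S.Pair n N ℂ a → (∀ e, 0 < e → S.Curve e n N ℂ a) → S.Concl n N a

/-- for the pairs in `ℙᴺ` over `K`: if `L · C ≥ 0` for all curves `C` of degree at most `m`, then `L^k` is globally generated for
some `0 < k ≤ m` -/
def Bounded (n N m : ℕ) (K : Type) [Field K] : Prop :=
  ∀ a : Fin (S.r n N) → K, (S.Pair n N K a ∧ ∀ e, 0 < e → e ≤ m → S.Curve e n N K a) → S.Gen m n N K a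

/-- For every `n` the following are equivalent: Q1 for projective hyperkähler manifolds of dimension `2n`; for every `N` there is `m`
such that `Bounded n N m ℂ`; the same over all algebraically closed fields of characteristic zero or `p > m`; the same over the
algebraic closure of `ℚ`; the same over some algebraically closed field of characteristic `p`, for infinitely many `p`. -/
theorem result (n : ℕ) : List.TFAE [
    Q1Projective S n,
    ∀ N, ∃ m, Bounded S n N m ℂ,
    ∀ N, ∃ m, ∀ (K : Type) [Field K], IsAlgClosed K → (CharZero K ∨ ∃ p, m < p ∧ p.Prime ∧ CharP K p) →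
      Bounded S n N m K,
    ∀ N, ∃ m, Bounded S n N m (AlgebraicClosure ℚ),
    ∀ N, ∃ m, ∀ B, ∃ p, B < p ∧ p.Prime ∧ ∃ (K : Type) (_ : Field K), IsAlgClosed K ∧ CharP K p ∧
      Bounded S n N m K] := by
  have e := fun N => tfae (FO_conj (S.pair_fo n N) (S.curve_fo n N)) (S.gen_fo n N) Decr_conj (S.gen_mono n N)
  have e01 := fun N => (e N).out 0 1
  have e02 := fun N => (e N).out 0 2
  have e03 := fun N => (e N).out 0 3
  have e04 := fun N => (e N).out 0 4
  have h1 : Q1Projective S n ↔ ∀ N, ∀ a : Fin (S.r n N) → ℂ,
      (∀ d, S.Pair n N ℂ a ∧ ∀ e, 0 < e → e ≤ d → S.Curve e n N ℂ a) → ∃ m, S.Gen m n N ℂ a := by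
    constructor
    · intro h N a ha
      have h2 : ∀ e, 0 < e → S.Curve e n N ℂ a := fun e he => (ha e).2 e he le_rfl
      exact (S.syz_iff n N a (ha 0).1 h2).1 (h N a (ha 0).1 h2)
    · intro h N a h2 h3
      exact (S.syz_iff n N a h2 h3).2 (h N a fun _ => ⟨h2, fun e he _ => h3 e he⟩)
  tfae_have 1 ↔ 2 := h1.trans (forall_congr' e01)
  tfae_have 1 ↔ 3 := h1.trans (forall_congr' e02)
  tfae_have 1 ↔ 4 := h1.trans (forall_congr' e03)
  tfae_have 1 ↔ 5 := h1.trans (forall_congr' e04)
  tfae_finish

end Pool.Agent.Results.MP_a405d2_ag.FiniteNefness
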